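import Mathlib
import Pool.Agent.K3h39.Sep8b

/-!
# Separating eight points in space by three planes

Every set `P` of eight points in general position in space is separated by three planes. Moreover
every plane with four points of `P` on each side can be completed to three separating planes.

Proof. Let the first plane split `P` into `S` and `S'`. For every pairing `{a, b}, {c, d}` of `S`
there is a plane which separates `a` from `b` and `c` from `d` and bisects `S'` (a plane through
`a`, `c` and a suitable point of `S'`, moved slightly). A plane which bisects `S` and `S'` induces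
one of the three pairings of `S` and one of the three pairings of `S'`; so the pairs of pairings
which occur are contained neither in a row nor in a column of the `3 × 3` grid, hence two of them
differ in both coordinates, and two such planes complete the first one.
-/

set_option autoImplicit false

namespace Pool.Agent.Results.MP_a0a64f_co.ThreePlanes

/-- Euclidean three-space. -/
abbrev E3 := EuclideanSpace ℝ (Fin 3)

/-- `P` is in general position: no plane `{x | ⟪v, x⟫ = t}`, `v ≠ 0`, contains four points of `P`. -/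
def GeneralPosition (P : Finset E3) : Prop :=
  ∀ v : E3, v ≠ 0 → ∀ t : ℝ, (P.filter (fun x => inner ℝ v x = t)).card ≤ 3

/-- The three planes `{x | ⟪v i, x⟫ = t i}` separate the points of `P`: no point of `P` lies on one
of the planes, and for each of the eight patterns `s` of sides exactly one point of `P` lies, for
every `i`, on the side of the `i`-th plane given by `s i`. -/
def Separate (P : Finset E3) (v : Fin 3 → E3) (t : Fin 3 → ℝ) : Prop :=
  (∀ i, v i ≠ 0) ∧ (∀ i, ∀ x ∈ P, inner ℝ (v i) x ≠ t i) ∧
    ∀ s : Fin 3 → Bool, ∃! x, x ∈ P ∧ ∀ i, (t i < inner ℝ (v i) x ↔ s i = true)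

/-- **Every eight points in general position in space are separated by three planes**, and the first
plane can be any plane with four of the points on each side. -/
theorem result (P : Finset E3) (h8 : P.card = 8) (hP : GeneralPosition P) :
    (∃ (v : Fin 3 → E3) (t : Fin 3 → ℝ), Separate P v t) ∧
    ∀ (v₀ : E3) (t₀ : ℝ), v₀ ≠ 0 → (∀ x ∈ P, inner ℝ v₀ x ≠ t₀) →
      (P.filter (fun x => t₀ < inner ℝ v₀ x)).card = 4 →
      ∃ (v : Fin 3 → E3) (t : Fin 3 → ℝ), v 0 = v₀ ∧ t 0 = t₀ ∧ Separate P v t := by
  have key : ∀ (v₀ : E3) (t₀ : ℝ), (∀ x ∈ P, inner ℝ v₀ x ≠ t₀) →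
      (P.filter (fun x => t₀ < inner ℝ v₀ x)).card = 4 →
      ∃ (v : Fin 3 → E3) (t : Fin 3 → ℝ), v 0 = v₀ ∧ t 0 = t₀ ∧ Separate P v t := by
    intro v₀ t₀ h1 h2
    obtain ⟨F, hF, h3, h4, h5⟩ := K3h39.Sep8.sep_of_half (P := P) hP h8 (v₀, t₀)
      (fun x hx h => h1 x hx (by simp only [K3h39.Sep8.ev] at h; linarith)) (by
        rw [← h2]
        congr 1
        apply Finset.filter_congr
        intro x _
        simp only [K3h39.Sep8.ev, sub_pos])
    refine ⟨fun i => (F i).1, fun i => (F i).2, congrArg Prod.fst hF, congrArg Prod.snd hF, h3, ?_, ?_⟩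
    · intro i x hx h
      apply h4 i x hx
      simp only [K3h39.Sep8.ev]
      linarith
    · intro s
      obtain ⟨x, ⟨hx, hs⟩, hu⟩ := h5 s
      have e : ∀ (i : Fin 3) (y : E3), ((F i).2 < inner ℝ (F i).1 y ↔ s i = true) ↔
          K3h39.Sep8.sg (F i) y = s i := by
        intro i y
        have h6 : K3h39.Sep8.sg (F i) y = true ↔ (F i).2 < inner ℝ (F i).1 y := by
          rw [K3h39.Sep8.sg_true]
          simp only [K3h39.Sep8.ev, sub_pos]
        rw [← h6]
        cases K3h39.Sep8.sg (F i) y <;> cases s i <;> simp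
      refine ⟨x, ⟨hx, fun i => (e i x).2 (hs i)⟩, ?_⟩
      rintro y ⟨hy, hy2⟩
      exact hu y ⟨hy, fun i => (e i y).1 (hy2 i)⟩
  refine ⟨?_, fun v₀ t₀ _ h1 h2 => key v₀ t₀ h1 h2⟩
  obtain ⟨F, hF1, hF2⟩ := K3h39.Sep8.half P h8
  obtain ⟨v, t, -, -, h⟩ := key F.1 F.2
    (fun x hx h => hF1 x hx (by simp only [K3h39.Sep8.ev]; linarith)) (by
      rw [← hF2]
      congr 1
      apply Finset.filter_congr
      intro x _
      simp only [K3h39.Sep8.ev, sub_pos])
  exact ⟨v, t, h⟩

end Pool.Agent.Results.MP_a0a64f_co.ThreePlanes
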